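import Pool.Agent.K1H35.LK.Defs

/-! T6: templates and the combinatorics of moving tokens. -/

set_option autoImplicit false

namespace Pool.Agent.K1H97.LK

open Pool.Agent.K1H35.LK

theorem t_TOKEN : S_TOKEN := by
  classical
  intro π m N K Sl h1 h2 h3
  let τ : ℕ → ℕ := fun a => if h : ∃ t, 1 ≤ t ∧ (π ^ t) a < m then Nat.find h else 0
  have key : ∀ n (p : Fin K → ℕ), Function.Injective p → (∀ j, p j < N) → ∑ j, τ (p j) = n →
      ∃ p' : Fin K → ℕ, Function.Injective p' ∧ (∀ j, p' j < N) ∧ (∀ j, Sl (p' j)) ∧
        Relation.ReflTransGen (fun q q' : Fin K → ℕ => Function.Injective q ∧ (∀ j, q j < N) ∧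
          ∃ j, m ≤ π (q j) ∧ (∀ j', q j' ≠ π (q j)) ∧ q' = Function.update q j (π (q j))) p p' := by
    intro n
    induction n using Nat.strong_induction_on with
    | _ n ih =>
      intro p hp hpN hn
      by_cases hm : ∃ j, m ≤ π (p j) ∧ ∀ j', p j' ≠ π (p j)
      · obtain ⟨j, hj1, hj2⟩ := hm
        set q : Fin K → ℕ := Function.update p j (π (p j)) with hq
        have hqj : q j = π (p j) := by rw [hq, Function.update_self]
        have hqi : ∀ i, i ≠ j → q i = p i := fun i hi => by rw [hq, Function.update_of_ne hi]
        have hqinj : Function.Injective q := by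
          intro x y hxy
          by_cases hx : x = j
          · by_cases hy : y = j
            · rw [hx, hy]
            · rw [hx, hqj, hqi y hy] at hxy
              exact absurd hxy.symm (hj2 y)
          · by_cases hy : y = j
            · rw [hy, hqj, hqi x hx] at hxy
              exact absurd hxy (hj2 x)
            · rw [hqi x hx, hqi y hy] at hxy
              exact hp hxy
        have hqN : ∀ i, q i < N := by
          intro i
          by_cases hi : i = j
          · rw [hi, hqj]; exact h1 _ (hpN j)
          · rw [hqi i hi]; exact hpN i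
        have hlt : τ (π (p j)) < τ (p j) := by
          have e1 : ∃ t, 1 ≤ t ∧ (π ^ t) (p j) < m := h2 _ (hpN j)
          have e2 : ∃ t, 1 ≤ t ∧ (π ^ t) (π (p j)) < m := h2 _ (h1 _ (hpN j))
          have f1 : τ (p j) = Nat.find e1 := dif_pos e1
          have f2 : τ (π (p j)) = Nat.find e2 := dif_pos e2
          rw [f1, f2]
          obtain ⟨g1, g2⟩ := Nat.find_spec e1
          obtain ⟨T, hT⟩ : ∃ T, Nat.find e1 = T + 1 := ⟨Nat.find e1 - 1, by omega⟩
          have hT1 : 1 ≤ T := by
            by_contra hc
            have h0 : T = 0 := by omega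
            rw [hT, h0] at g2
            simp only [zero_add, pow_one] at g2
            omega
          rw [hT]
          refine Nat.lt_succ_of_le (Nat.find_min' e2 ⟨hT1, ?_⟩)
          rw [hT, pow_succ, Equiv.Perm.mul_apply] at g2
          exact g2
        have hsum : ∑ i, τ (q i) < n := by
          rw [← hn]
          refine Finset.sum_lt_sum (fun i _ => ?_) ⟨j, Finset.mem_univ _, by rw [hqj]; exact hlt⟩
          by_cases hi : i = j
          · rw [hi, hqj]; exact hlt.le
          · rw [hqi i hi]
        obtain ⟨p', a1, a2, a3, a4⟩ := ih _ hsum q hqinj hqN rfl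
        exact ⟨p', a1, a2, a3, Relation.ReflTransGen.head ⟨hp, hpN, j, hj1, hj2, hq⟩ a4⟩
      · refine ⟨p, hp, hpN, fun j => ?_, Relation.ReflTransGen.refl⟩
        by_contra hSl
        obtain ⟨t, ht1, ht2, -⟩ := h3 _ (hpN j) hSl
        have hocc : ∀ r, r < t + K → ∃ i, p i = (π ^ r) (p j) := by
          intro r
          induction r with
          | zero => exact fun _ => ⟨j, by simp⟩
          | succ r ihr =>
            intro hr
            obtain ⟨i, hi⟩ := ihr (by omega)
            have hge : m ≤ π (p i) := by
              rw [hi, ← Equiv.Perm.mul_apply, ← pow_succ']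
              exact ht2 _ (by omega) hr
            by_contra hc
            refine hm ⟨i, hge, fun i' hi' => hc ⟨i', ?_⟩⟩
            rw [hi', hi, pow_succ', Equiv.Perm.mul_apply]
        have : Nonempty (Fin K) := ⟨j⟩
        choose! σ hσ using hocc
        have hinj : Set.InjOn σ (Finset.range (t + K) : Set ℕ) := by
          have hd : ∀ r r', r < r' → r' < t + K → (π ^ r) (p j) = (π ^ r') (p j) → False := by
            intro r r' hr hr' he
            obtain ⟨d, rfl⟩ : ∃ d, r' = r + d := ⟨r' - r, by omega⟩
            have hper : (π ^ d) (p j) = p j := by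
              rw [pow_add, Equiv.Perm.mul_apply] at he
              exact ((π ^ r).injective he).symm
            obtain ⟨T, hT1, hT2⟩ := h2 _ (hpN j)
            have hall : ∀ u, (π ^ (d * u)) (p j) = p j := by
              intro u
              induction u with
              | zero => simp
              | succ u ihu => rw [Nat.mul_succ, pow_add, Equiv.Perm.mul_apply, hper, ihu]
            have hdpos : 0 < d := by omega
            have hdec : T = ((T - 1) % d + 1) + d * ((T - 1) / d) := by
              have := Nat.mod_add_div (T - 1) d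
              omega
            rw [hdec, pow_add, Equiv.Perm.mul_apply, hall] at hT2
            have hmod := Nat.mod_lt (T - 1) hdpos
            have := ht2 ((T - 1) % d + 1) (by omega) (by omega)
            omega
          intro r hr r' hr' he
          simp only [Finset.coe_range, Set.mem_Iio] at hr hr'
          have h5 : (π ^ r) (p j) = (π ^ r') (p j) := by rw [← hσ r hr, ← hσ r' hr', he]
          rcases lt_trichotomy r r' with h | h | h
          · exact absurd h5 fun h5 => hd r r' h hr' h5
          · exact h
          · exact absurd h5.symm fun h5 => hd r' r h hr h5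
        have hcard := Finset.card_le_card_of_injOn (s := Finset.range (t + K))
          (t := (Finset.univ : Finset (Fin K))) σ (fun _ _ => Finset.mem_univ _) hinj
        rw [Finset.card_range, Finset.card_univ, Fintype.card_fin] at hcard
        omega
  intro p hp hpN
  exact key _ p hp hpN rfl

theorem val_one (m : ℕ) : Val m ⟨0, 1⟩ := by
  refine ⟨one_mem _, fun a ha => ⟨a, by simpa using ha, ?_⟩, fun i _ j _ h => ?_⟩
  · exact Equiv.Perm.SameCycle.refl _ _
  · simp only [map_one] at h
    obtain ⟨z, hz⟩ := h
    simpa using hz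

/-- the permutations of the templates -/
theorem temp_step (hR : S_REAL) (hM : S_MUL) (m : ℕ) (hm : 1 ≤ m) : ∀ r : ℕ, ∃ T : Br,
    Val m ⟨r, T⟩ ∧ Mk m ⟨r, T⟩ one ∧ (∀ a, m ≤ a → a < m + r → pm T a = a - m) ∧
      ∀ a, a < m → r ≤ pm T a ∧ pm T a < r + m ∧ pm T a % m = a := by
  obtain ⟨R1, -, -, R4, -, -, -, -, -, R10⟩ := hR
  obtain ⟨-, M2, -, -, -⟩ := hM
  intro r
  induction r with
  | zero =>
    refine ⟨1, val_one m, Relation.EqvGen.refl _, fun a h1 h2 => by omega, fun a ha => ?_⟩
    simp only [map_one, Equiv.Perm.one_apply]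
    exact ⟨by omega, by omega, Nat.mod_eq_of_lt ha⟩
  | succ r ih =>
    obtain ⟨T, hV, hK, hA, hB⟩ := ih
    have hi : r % m < m := Nat.mod_lt _ (by omega)
    obtain ⟨w, hw, -, hw2⟩ := R10 0 (m + r) (r % m) (by omega) (by omega)
    have hwN : w ∈ BN (m + r) := R4 _ _ hw
    have hTN : T ∈ BN (m + r) := hV.1
    have hmv : Mv m ⟨r, T⟩ ⟨r + 1, T * w * s (m + r - 1) * w⁻¹⟩ := by
      have h := Mv.stab (m := m) r (T * w) w⁻¹ (by omega) (mul_mem hTN hwN) (inv_mem hwN)
      rwa [mul_inv_cancel_right] at h
    have hV' : Val m ⟨r + 1, T * w * s (m + r - 1) * w⁻¹⟩ := M2 _ _ _ hV hmv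
    have hpm : pm (T * w * s (m + r - 1) * w⁻¹) = pm T * Equiv.swap (r % m) (m + r) := by
      rw [← hw2, ← map_mul]
      congr 1
      simp only [mul_assoc]
    refine ⟨T * w * s (m + r - 1) * w⁻¹, hV', ?_, ?_, ?_⟩
    · exact Relation.EqvGen.trans _ _ _ (Relation.EqvGen.symm _ _ (Relation.EqvGen.rel _ _ ⟨hV, hV', hmv⟩)) hK
    · intro a h1 h2
      rw [hpm, Equiv.Perm.mul_apply]
      by_cases ha : a = m + r
      · rw [ha, Equiv.swap_apply_right]
        obtain ⟨b1, b2, b3⟩ := hB _ hi
        have e1 := Nat.div_add_mod r m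
        have e2 := Nat.div_add_mod (pm T (r % m)) m
        rw [b3] at e2
        have e3 : pm T (r % m) / m = r / m := by
          have q1 : r / m ≤ pm T (r % m) / m := Nat.div_le_div_right b1
          have q2 : pm T (r % m) / m < r / m + 1 := by
            by_contra hc
            push Not at hc
            have := Nat.mul_le_mul_left m hc
            rw [Nat.mul_add, Nat.mul_one] at this
            omega
          omega
        rw [e3] at e2
        omega
      · rw [Equiv.swap_apply_of_ne_of_ne (by omega) ha]
        exact hA a h1 (by omega)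
    · intro a ha
      rw [hpm, Equiv.Perm.mul_apply]
      by_cases hai : a = r % m
      · rw [hai, Equiv.swap_apply_left, R1 _ _ hTN _ le_rfl]
        refine ⟨by omega, by omega, ?_⟩
        rw [Nat.add_mod_left]
      · rw [Equiv.swap_apply_of_ne_of_ne hai (by omega)]
        obtain ⟨b1, b2, b3⟩ := hB a ha
        refine ⟨?_, by omega, b3⟩
        rcases Nat.lt_or_ge r (pm T a) with h | h
        · exact h
        · exfalso
          have : pm T a = r := le_antisymm h b1
          rw [this] at b3
          exact hai b3.symm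

theorem t_TEMP (hR : S_REAL) (hM : S_MUL) : S_TEMP := by
  intro m K hm
  obtain ⟨T, hV, hK, hA, hB⟩ := temp_step hR hM m hm (m * K)
  have hfirst : ∀ i, i < m → pm T i = m * K + i := by
    intro i hi
    obtain ⟨b1, b2, b3⟩ := hB i hi
    have e2 := Nat.div_add_mod (pm T i) m
    have e3 : pm T i / m = K := by
      have q1 : K ≤ pm T i / m := by
        rw [Nat.le_div_iff_mul_le (by omega), mul_comm]
        exact b1
      have q2 : pm T i / m < K + 1 := by
        rw [Nat.div_lt_iff_lt_mul (by omega)]
        nlinarith
      omega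
    rw [e3, b3] at e2
    omega
  have hpow : ∀ i, i < m → ∀ t, t ≤ K → ((pm T) ^ (t + 1)) i = m * (K - t) + i := by
    intro i hi t
    induction t with
    | zero => exact fun _ => by simp [hfirst i hi]
    | succ t ih =>
      intro ht
      rw [pow_succ', Equiv.Perm.mul_apply, ih (by omega)]
      have e : K - t = (K - (t + 1)) + 1 := by omega
      have h1 : m * (K - t) = m * (K - (t + 1)) + m := by rw [e, Nat.mul_add, Nat.mul_one]
      have h2 : m * (K - t) ≤ m * K := Nat.mul_le_mul_left _ (by omega)
      rw [hA _ (by omega) (by omega)]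
      omega
  refine ⟨T, hV, hK, fun i hi => ⟨?_, fun t ht1 ht2 => ?_⟩⟩
  · have := hpow i hi K le_rfl
    simpa using this
  · obtain ⟨u, rfl⟩ : ∃ u, t = u + 1 := ⟨t - 1, by omega⟩
    rw [hpow i hi u (by omega)]
    have h1 : m * 1 ≤ m * (K - u) := Nat.mul_le_mul_left _ (by omega)
    have h2 : m * (K - u) ≤ m * K := Nat.mul_le_mul_left _ (by omega)
    omega

end Pool.Agent.K1H97.LK
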