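import Pool.Agent.K1H35.LK.Defs

/-! T11c: the quotients of the filtration by double points are finitely generated. -/

set_option autoImplicit false

namespace Pool.Agent.K1H97.LK

open Pool.Agent.K1H35.LK

theorem cls_val {m : ℕ} {d : RD} (h : Val m d) : cls m d = uni (Quot.mk _ ⟨d, h⟩ : SLink m) := by
  unfold cls evS
  exact dif_pos h

/-- the subgroup generated by the classes of the diagrams is everything -/
theorem cls_top (m : ℕ) : AddSubgroup.closure {x : AA m | ∃ d, Val m d ∧ x = cls m d} = ⊤ := by
  rw [eq_top_iff]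
  rintro x -
  induction x using Finsupp.induction_linear with
  | zero => exact zero_mem _
  | add f g hf hg => exact add_mem hf hg
  | single a b =>
    obtain ⟨⟨d, hd⟩, rfl⟩ := Quot.exists_rep a
    have h1 : cls m d ∈ AddSubgroup.closure {x : AA m | ∃ d, Val m d ∧ x = cls m d} :=
      AddSubgroup.subset_closure ⟨d, hd, rfl⟩
    have h2 := AddSubgroup.zsmul_mem _ h1 b
    rw [cls_val hd] at h2
    have h3 : b • uni (Quot.mk _ ⟨d, hd⟩ : SLink m) =
        (Finsupp.single (Quot.mk _ ⟨d, hd⟩ : SLink m) b : AA m) := by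
      unfold uni
      rw [Finsupp.smul_single, smul_eq_mul, mul_one]
    rw [h3] at h2
    exact h2

theorem val_one' (m : ℕ) : Val m one := by
  refine ⟨one_mem _, fun a ha => ⟨a, by simpa [one] using ha, ?_⟩, fun i _ j _ h => ?_⟩
  · exact Equiv.Perm.SameCycle.refl _ _
  · simp only [one, map_one] at h
    obtain ⟨z, hz⟩ := h
    simpa using hz

theorem mul_one_left (m : ℕ) (d : RD) : mul m one d = d := by
  obtain ⟨k, b⟩ := d
  simp only [mul, one, psiK, MonoidHom.id_apply, one_mul, Nat.zero_add]

theorem t_FINM (hM : S_MUL) (hF : S_FGM) (hB : S_BIL) (hJ : S_JE) (hBase : S_BASE) : S_FINM := by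
  intro m n hm
  obtain ⟨F, hF1, hF2, hF3⟩ := hF m n hm
  obtain ⟨B, hB1, hB2⟩ := hB m hm
  obtain ⟨J1, J2, J3, J4⟩ := hJ
  obtain ⟨M1, -⟩ := hM
  -- the element `one` acts as the identity
  have hone : ∀ x : AA m, B (cls m one) x = x := by
    intro x
    have hx : x ∈ AddSubgroup.closure {x : AA m | ∃ d, Val m d ∧ x = cls m d} := by
      rw [cls_top]; trivial
    induction hx using AddSubgroup.closure_induction with
    | mem x hx =>
      obtain ⟨d, hd, rfl⟩ := hx
      rw [hB1 _ _ (val_one' m) hd, mul_one_left]
    | zero => exact map_zero _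
    | add x y _ _ hx hy => rw [map_add, hx, hy]
    | neg x _ hx => rw [map_neg, hx]
  let W : List F → AA m := fun l => l.foldr (fun f x => B (cls m f.1 - cls m one) x) (cls m one)
  have hWcons : ∀ (f : F) (l : List F), W (f :: l) = B (cls m f.1 - cls m one) (W l) :=
    fun f l => rfl
  have hWJ : ∀ l : List F, W l ∈ J m l.length := by
    intro l
    induction l with
    | nil =>
      rw [List.length_nil, J1]
      trivial
    | cons f l ih =>
      rw [hWcons, List.length_cons, Nat.add_comm]
      exact hB2 _ _ _ _ (J4 m 0 _ _ (hBase m f.1 hm (hF2 _ f.2))) ih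
  have hmono : ∀ a b, a ≤ b → J m b ≤ J m a := by
    intro a b hab
    induction hab with
    | refl => exact le_rfl
    | step _ ih => exact (J2 m _).trans ih
  -- classes of products
  have hprod : ∀ l : List RD, (∀ x ∈ l, x ∈ F) → Val m (l.foldr (mul m) one) ∧
      cls m (l.foldr (mul m) one) ∈ AddSubgroup.closure (Set.range W) := by
    intro l
    induction l with
    | nil =>
      intro _
      exact ⟨val_one' m, AddSubgroup.subset_closure ⟨[], rfl⟩⟩
    | cons f l ih =>
      intro hl
      obtain ⟨h1, h2⟩ := ih fun x hx => hl x (List.mem_cons_of_mem _ hx)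
      have hf : f ∈ F := hl f List.mem_cons_self
      have hfV := hF2 f hf
      rw [List.foldr_cons]
      refine ⟨M1 _ _ _ hfV h1, ?_⟩
      rw [← hB1 _ _ hfV h1]
      generalize cls m (l.foldr (mul m) one) = y at h2
      induction h2 using AddSubgroup.closure_induction with
      | mem x hx =>
        obtain ⟨l', rfl⟩ := hx
        have e : B (cls m f) (W l') = W (⟨f, hf⟩ :: l') + W l' := by
          rw [hWcons, map_sub, AddMonoidHom.sub_apply, hone]
          abel
        rw [e]
        exact add_mem (AddSubgroup.subset_closure ⟨_, rfl⟩) (AddSubgroup.subset_closure ⟨_, rfl⟩)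
      | zero => rw [map_zero]; exact zero_mem _
      | add x y _ _ hx hy => rw [map_add]; exact add_mem hx hy
      | neg x _ hx => rw [map_neg]; exact neg_mem hx
  -- the finite set of generators
  have hfinF : Finite F := hF1.to_subtype
  rw [AddGroup.fg_iff]
  refine ⟨(fun l => (QuotientAddGroup.mk (W l) : AA m ⧸ J m (n + 1))) '' {l : List F | l.length ≤ n},
    ?_, (List.finite_length_le F n).image _⟩
  set G := AddSubgroup.closure ((fun l => (QuotientAddGroup.mk (W l) : AA m ⧸ J m (n + 1))) ''
    {l : List F | l.length ≤ n}) with hG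
  have hWG : ∀ l : List F, (QuotientAddGroup.mk (W l) : AA m ⧸ J m (n + 1)) ∈ G := by
    intro l
    by_cases hl : l.length ≤ n
    · exact AddSubgroup.subset_closure ⟨l, hl, rfl⟩
    · have h0 : (QuotientAddGroup.mk (W l) : AA m ⧸ J m (n + 1)) = 0 :=
        (QuotientAddGroup.eq_zero_iff _).2 (hmono _ _ (by omega) (hWJ l))
      rw [h0]
      exact zero_mem _
  rw [eq_top_iff]
  rintro z -
  obtain ⟨x, rfl⟩ := QuotientAddGroup.mk_surjective z
  have hx : x ∈ AddSubgroup.closure {x : AA m | ∃ d, Val m d ∧ x = cls m d} := by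
    rw [cls_top]; trivial
  induction hx using AddSubgroup.closure_induction with
  | mem x hx =>
    obtain ⟨d, hd, rfl⟩ := hx
    obtain ⟨l, hl, he⟩ := hF3 d hd
    have h1 : (QuotientAddGroup.mk (cls m d) : AA m ⧸ J m (n + 1)) =
        QuotientAddGroup.mk (cls m (l.foldr (mul m) one)) := by
      rw [QuotientAddGroup.eq, neg_add_eq_sub]
      have := neg_mem (J4 m n _ _ he)
      rwa [neg_sub] at this
    rw [h1]
    have h2 := (hprod l hl).2
    generalize cls m (l.foldr (mul m) one) = y at h2
    induction h2 using AddSubgroup.closure_induction with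
    | mem x hx =>
      obtain ⟨l', rfl⟩ := hx
      exact hWG l'
    | zero => exact zero_mem _
    | add x y _ _ hx hy => exact add_mem hx hy
    | neg x _ hx => exact neg_mem hx
  | zero => exact zero_mem _
  | add x y _ _ hx hy => exact add_mem hx hy
  | neg x _ hx => exact neg_mem hx

end Pool.Agent.K1H97.LK
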